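import Pool.Agent.H20.LIM.Targets2

/-!
# The fundamental solution of the Laplacian in the plane
-/

set_option autoImplicit false

open Complex MeasureTheory Set Filter Topology Metric Laplacian

namespace Pool.Agent.H69.LIM

open Pool.Agent.H20.LIM

lemma ball_int_sub (r : ℝ) (f : ℂ → ℝ) (c z : ℂ) :
    ∫ w in ball z r, f (w - c) = ∫ w in ball (z - c) r, f w := by
  rw [← integral_indicator measurableSet_ball, ← integral_indicator measurableSet_ball,
    ← integral_sub_right_eq_self ((ball (z - c) r).indicator f) c]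
  congr 1
  funext w
  have h : (w ∈ ball z r) ↔ (w - c ∈ ball (z - c) r) := by
    rw [mem_ball, mem_ball, dist_sub_right]
  by_cases hw : w ∈ ball z r
  · rw [indicator_of_mem hw, indicator_of_mem (h.1 hw)]
  · rw [indicator_of_notMem hw, indicator_of_notMem (fun h' => hw (h.2 h'))]

lemma av_sub (r : ℝ) (f : ℂ → ℝ) (c z : ℂ) :
    av r (fun w => f (w - c)) z = av r f (z - c) := by
  unfold av
  rw [setAverage_eq, setAverage_eq, ball_int_sub]
  congr 2
  unfold Measure.real
  rw [Complex.volume_ball, Complex.volume_ball]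

lemma lap_continuous {φ : ℂ → ℝ} (hφ : ContDiff ℝ 2 φ) : Continuous (Δ φ) := by
  rw [InnerProductSpace.laplacian_eq_iteratedFDeriv_complexPlane]
  have h : Continuous (iteratedFDeriv ℝ 2 φ) := hφ.continuous_iteratedFDeriv le_rfl
  have h1 : ∀ v : Fin 2 → ℂ, Continuous fun x => iteratedFDeriv ℝ 2 φ x v := fun v =>
    (ContinuousMultilinearMap.apply ℝ (fun _ : Fin 2 => ℂ) ℝ v).continuous.comp h
  exact (h1 _).add (h1 _)

lemma lap_zero {φ : ℂ → ℝ} {z : ℂ} (hz : z ∉ tsupport φ) : (Δ φ) z = 0 := by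
  rw [InnerProductSpace.laplacian_eq_iteratedFDeriv_complexPlane]
  have h : iteratedFDeriv ℝ 2 φ z = 0 := by
    by_contra hne
    exact hz (support_iteratedFDeriv_subset 2 (Function.mem_support.2 hne))
  simp only [h]
  simp

lemma lap_compact {φ : ℂ → ℝ} (hc : HasCompactSupport φ) : HasCompactSupport (Δ φ) :=
  HasCompactSupport.intro hc fun _ hz => lap_zero hz

lemma log_loc (hLI : T_LI) (c : ℂ) : LocallyIntegrable (fun z : ℂ => Real.log ‖z - c‖) volume :=
  hLI (fun z => z - c) (differentiable_id.sub_const c) ⟨c + 1, by simp⟩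

lemma int_log (hLI : T_LI) (c : ℂ) {g : ℂ → ℝ} (hg : Continuous g) (hc : HasCompactSupport g) :
    Integrable (fun z => Real.log ‖z - c‖ * g z) := by
  have h := (log_loc hLI c).integrable_smul_right_of_hasCompactSupport hg hc
  simpa only [smul_eq_mul] using h

lemma av_zero {φ : ℂ → ℝ} {R r : ℝ} (hR : ∀ z : ℂ, R < ‖z‖ → φ z = 0) (hr : r ≤ 1) {z : ℂ}
    (hz : R + 1 < ‖z‖) : av r φ z = 0 := by
  unfold av
  rw [setAverage_eq, setIntegral_eq_zero_of_forall_eq_zero, smul_zero]
  intro w hw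
  refine hR w ?_
  rw [mem_ball, dist_eq_norm] at hw
  have h1 := norm_sub_norm_le z w
  rw [norm_sub_rev] at h1
  linarith

lemma lhs_close (hLI : T_LI) {φ : ℂ → ℝ} (c : ℂ) {R r δ : ℝ} (hR : ∀ z : ℂ, R < ‖z‖ → φ z = 0)
    (hRt : tsupport φ ⊆ closedBall 0 R) (hr1 : r ≤ 1)
    (hd : ∀ z : ℂ, |8 / r ^ 2 * (av r φ z - φ z) - (Δ φ) z| ≤ δ)
    (hi1 : Integrable (fun z => Real.log ‖z - c‖ * av r φ z))
    (hi2 : Integrable (fun z => Real.log ‖z - c‖ * φ z))
    (hi3 : Integrable (fun z => Real.log ‖z - c‖ * (Δ φ) z)) :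
    |(8 / r ^ 2 * ((∫ z, Real.log ‖z - c‖ * av r φ z) - ∫ z, Real.log ‖z - c‖ * φ z)) -
      ∫ z, Real.log ‖z - c‖ * (Δ φ) z| ≤
      δ * ∫ z in closedBall (0 : ℂ) (R + 1), |Real.log ‖z - c‖| := by
  have h1 : (8 / r ^ 2 * ((∫ z, Real.log ‖z - c‖ * av r φ z) - ∫ z, Real.log ‖z - c‖ * φ z)) -
      ∫ z, Real.log ‖z - c‖ * (Δ φ) z =
      ∫ z, Real.log ‖z - c‖ * (8 / r ^ 2 * (av r φ z - φ z) - (Δ φ) z) := by
    rw [← integral_sub hi1 hi2, ← integral_const_mul, ← integral_sub _ hi3]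
    · congr 1
      funext z
      ring
    · exact (hi1.sub hi2).const_mul _
  rw [h1, ← integral_const_mul, ← integral_indicator measurableSet_closedBall, ← Real.norm_eq_abs]
  refine norm_integral_le_of_norm_le ?_ (Eventually.of_forall fun z => ?_)
  · rw [integrable_indicator_iff measurableSet_closedBall]
    exact (((log_loc hLI c).integrableOn_isCompact (isCompact_closedBall _ _)).norm).const_mul δ
  · rw [Real.norm_eq_abs, abs_mul]
    by_cases hz : z ∈ closedBall (0 : ℂ) (R + 1)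
    · rw [indicator_of_mem hz, mul_comm]
      exact mul_le_mul_of_nonneg_right (hd z) (abs_nonneg _)
    · rw [indicator_of_notMem hz]
      rw [mem_closedBall_zero_iff, not_le] at hz
      have h2 : φ z = 0 := hR z (by linarith)
      have h3 : av r φ z = 0 := av_zero hR hr1 hz
      have h4 : (Δ φ) z = 0 := lap_zero fun h => by
        have := hRt h
        rw [mem_closedBall_zero_iff] at this
        linarith
      rw [h2, h3, h4]
      simp

lemma kr_integrable (hKR : T_KR) {r : ℝ} (hr : 0 < r) : Integrable (kr r) := by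
  have h := (hKR r hr).2.1
  rw [integrableOn_iff_integrable_of_support_subset] at h
  · exact h
  · intro w hw
    by_contra hne
    refine hw ?_
    rw [mem_ball_zero_iff] at hne
    unfold kr
    rw [if_neg hne]

lemma kr_int (hKR : T_KR) {r : ℝ} (hr : 0 < r) : ∫ w, kr r w = 1 := by
  rw [← (hKR r hr).2.2.1, setIntegral_eq_integral_of_forall_compl_eq_zero]
  intro w hne
  rw [mem_ball_zero_iff] at hne
  unfold kr
  rw [if_neg hne]

lemma kr_close (hKR : T_KR) {φ : ℂ → ℝ} (hφ : Continuous φ) (hc : HasCompactSupport φ) (c : ℂ)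
    {r ε : ℝ} (hr : 0 < r) (hε : ∀ w : ℂ, ‖w‖ < r → |φ (w + c) - φ c| ≤ ε) :
    |(∫ w, kr r w * φ (w + c)) - φ c| ≤ ε := by
  have hk := kr_integrable hKR hr
  have h1 : Integrable (fun w => kr r w * φ (w + c)) := by
    have hc1 : Continuous fun w : ℂ => φ (w + c) := hφ.comp (continuous_add_const c)
    have hc2 : HasCompactSupport fun w : ℂ => φ (w + c) :=
      hc.comp_homeomorph (Homeomorph.addRight c)
    have h := hk.locallyIntegrable.integrable_smul_right_of_hasCompactSupport hc1 hc2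
    simpa only [smul_eq_mul] using h
  have h2 : (∫ w, kr r w * φ (w + c)) - φ c = ∫ w, kr r w * (φ (w + c) - φ c) := by
    have h3 : ∫ w, kr r w * φ c = φ c := by
      rw [integral_mul_const, kr_int hKR hr, one_mul]
    have h4 : ∫ w, kr r w * (φ (w + c) - φ c) =
        (∫ w, kr r w * φ (w + c)) - ∫ w, kr r w * φ c := by
      rw [← integral_sub h1 (hk.mul_const _)]
      congr 1
      funext w
      ring
    rw [h4, h3]
  rw [h2, ← Real.norm_eq_abs]
  have h4 : ε = ∫ w, ε * kr r w := by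
    rw [integral_const_mul, kr_int hKR hr, mul_one]
  rw [h4]
  refine norm_integral_le_of_norm_le (hk.const_mul ε) ?_
  have h5 : ∀ᵐ w : ℂ, w ≠ 0 := by
    have := measure_singleton (μ := (volume : Measure ℂ)) 0
    exact compl_mem_ae_iff.2 this
  filter_upwards [h5] with w hw
  have h6 := (hKR r hr).1 w hw
  rw [norm_mul, Real.norm_eq_abs, Real.norm_eq_abs, abs_of_nonneg h6, mul_comm]
  by_cases hwr : ‖w‖ < r
  · exact mul_le_mul_of_nonneg_right (hε w hwr) h6
  · have h7 : kr r w = 0 := by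
      unfold kr
      rw [if_neg hwr]
    rw [h7]
    simp

lemma rhs_eq (hSAD : T_SAD) (hALOG : T_ALOG) (hLI : T_LI) {φ : ℂ → ℝ}
    (hφ : Continuous φ) (hc : HasCompactSupport φ) (c : ℂ) {r : ℝ} (hr : 0 < r) :
    8 / r ^ 2 * ((∫ z, Real.log ‖z - c‖ * av r φ z) - ∫ z, Real.log ‖z - c‖ * φ z) =
      2 * Real.pi * ∫ w, kr r w * φ (w + c) := by
  obtain ⟨-, h2, h3⟩ := hSAD (fun z => Real.log ‖z - c‖) φ r hr (log_loc hLI c) hφ hc
  have hi := int_log hLI c hφ hc
  rw [h3, ← integral_sub h2 hi, ← integral_sub_right_eq_self (fun w => kr r w * φ (w + c)) c,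
    ← integral_const_mul, ← integral_const_mul]
  refine integral_congr_ae ?_
  have h5 : ∀ᵐ w : ℂ, w ≠ c := by
    have := measure_singleton (μ := (volume : Measure ℂ)) c
    exact compl_mem_ae_iff.2 this
  filter_upwards [h5] with z hz
  have h6 : av r (fun z => Real.log ‖z - c‖) z = Real.log ‖z - c‖ +
      Real.pi * r ^ 2 / 4 * kr r (z - c) := by
    rw [av_sub r (fun w => Real.log ‖w‖) c z]
    exact hALOG r (z - c) hr (sub_ne_zero.2 hz)
  rw [h6, sub_add_cancel]
  have hr0 : r ≠ 0 := hr.ne'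
  field_simp
  ring

theorem pf_fun (hLAP : T_LAP) (hSAD : T_SAD) (hALOG : T_ALOG) (hKR : T_KR) (hLI : T_LI) :
    T_FUN := by
  intro φ hφ hc c
  have hcont : Continuous φ := hφ.continuous
  have hi3 := int_log hLI c (lap_continuous hφ) (lap_compact hc)
  refine ⟨hi3, ?_⟩
  obtain ⟨R, hRt⟩ := hc.isBounded.subset_closedBall (0 : ℂ)
  have hR : ∀ z : ℂ, R < ‖z‖ → φ z = 0 := fun z hz =>
    image_eq_zero_of_notMem_tsupport fun h => by
      have := hRt h
      rw [mem_closedBall_zero_iff] at this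
      linarith
  set M : ℝ := ∫ z in closedBall (0 : ℂ) (R + 1), |Real.log ‖z - c‖| with hM
  have hM0 : 0 ≤ M := integral_nonneg fun _ => abs_nonneg _
  have key : ∀ e : ℝ, 0 < e →
      |(∫ z, Real.log ‖z - c‖ * (Δ φ) z) - 2 * Real.pi * φ c| ≤ e := by
    intro e he
    have hδ : 0 < e / (2 * (M + 1)) := by positivity
    have hε : 0 < e / (2 * (2 * Real.pi)) := by positivity
    obtain ⟨r₀, hr₀, hd⟩ := hLAP φ hφ hc _ hδ
    obtain ⟨r₁, hr₁, hd1⟩ := Metric.continuous_iff.1 hcont c _ hε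
    set r : ℝ := min (min r₀ r₁) 1 with hr
    have hr0 : 0 < r := lt_min (lt_min hr₀ hr₁) one_pos
    have hrr₀ : r ≤ r₀ := (min_le_left _ _).trans (min_le_left _ _)
    have hrr₁ : r ≤ r₁ := (min_le_left _ _).trans (min_le_right _ _)
    have hr1 : r ≤ 1 := min_le_right _ _
    have hi1 := (hSAD (fun z => Real.log ‖z - c‖) φ r hr0 (log_loc hLI c) hcont hc).1
    have h1 := lhs_close hLI c hR hRt hr1 (hd r hr0 hrr₀) hi1 (int_log hLI c hcont hc) hi3
    rw [rhs_eq hSAD hALOG hLI hcont hc c hr0, ← hM] at h1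
    have h2 := kr_close hKR hcont hc c hr0 (ε := e / (2 * (2 * Real.pi))) (fun w hw => by
      have h3 := hd1 (w + c) (by
        rw [dist_eq_norm, add_sub_cancel_right]
        linarith)
      rw [Real.dist_eq] at h3
      exact h3.le)
    have h4 : e / (2 * (M + 1)) * M ≤ e / 2 := by
      rw [div_mul_eq_mul_div, div_le_div_iff₀ (by positivity) (by norm_num)]
      nlinarith
    have h5 : |2 * Real.pi * (∫ w, kr r w * φ (w + c)) - 2 * Real.pi * φ c| ≤ e / 2 := by
      rw [← mul_sub, abs_mul, abs_of_pos (by positivity : (0 : ℝ) < 2 * Real.pi)]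
      calc 2 * Real.pi * |(∫ w, kr r w * φ (w + c)) - φ c|
          ≤ 2 * Real.pi * (e / (2 * (2 * Real.pi))) :=
            mul_le_mul_of_nonneg_left h2 (by positivity)
        _ = e / 2 := by
            field_simp
    rw [abs_sub_comm] at h1
    calc |(∫ z, Real.log ‖z - c‖ * (Δ φ) z) - 2 * Real.pi * φ c|
        ≤ |(∫ z, Real.log ‖z - c‖ * (Δ φ) z) - 2 * Real.pi * ∫ w, kr r w * φ (w + c)| +
          |2 * Real.pi * (∫ w, kr r w * φ (w + c)) - 2 * Real.pi * φ c| := abs_sub_le _ _ _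
      _ ≤ e / 2 + e / 2 := add_le_add (h1.trans h4) h5
      _ = e := add_halves e
  exact eq_of_abs_sub_eq_zero (le_antisymm (le_of_forall_pos_le_add fun e he => by
    rw [zero_add]
    exact key e he) (abs_nonneg _))

end Pool.Agent.H69.LIM
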