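import Pool.Agent.H20.LIM.Targets

/-!
# The functional equation of a symmetric product
-/

set_option autoImplicit false

open Complex MeasureTheory Set Filter Topology Metric

namespace Pool.Agent.H69.LIM

open Pool.Agent.H20.LIM Pool.Agent.H23.GLM Pool.Agent.H23.DZ

lemma sym_poly (θ : ℝ) (n : ℕ) (ζ : Fin n → ℂ) :
    ∃ P : Polynomial ℂ, P.coeff 0 = 1 ∧
      ∀ z : ℂ, P.eval (cexp (-(θ * z))) = ∏ j, (1 - cexp (-(θ * (z - ζ j)))) := by
  refine ⟨∏ j, (1 - Polynomial.C (cexp (θ * ζ j)) * Polynomial.X), ?_, ?_⟩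
  · rw [Polynomial.coeff_zero_eq_eval_zero, Polynomial.eval_prod]
    refine Finset.prod_eq_one fun j _ => ?_
    simp
  · intro z
    rw [Polynomial.eval_prod]
    refine Finset.prod_congr rfl fun j _ => ?_
    rw [Polynomial.eval_sub, Polynomial.eval_one, Polynomial.eval_mul, Polynomial.eval_C,
      Polynomial.eval_X, ← Complex.exp_add]
    congr 2
    ring

lemma sym_factor (θ : ℝ) (z ζ ζ' : ℂ) (h : ζ' = -(starRingEnd ℂ) ζ) :
    1 - cexp (-(θ * (z - ζ))) =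
      (-1) * cexp (-(θ * z)) * cexp (θ * ζ) *
        (starRingEnd ℂ) (1 - cexp (-(θ * (-(starRingEnd ℂ) z - ζ')))) := by
  have h1 : (starRingEnd ℂ) (1 - cexp (-(θ * (-(starRingEnd ℂ) z - ζ')))) =
      1 - cexp (θ * (z - ζ)) := by
    rw [map_sub, map_one, ← Complex.exp_conj, h]
    congr 2
    simp only [map_neg, map_mul, map_sub, Complex.conj_ofReal, Complex.conj_conj]
    ring
  rw [h1]
  have h2 : (-1 : ℂ) * cexp (-(θ * z)) * cexp (θ * ζ) = -cexp (-(θ * (z - ζ))) := by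
    rw [mul_assoc, ← Complex.exp_add, neg_one_mul]
    congr 2
    ring
  have h3 : cexp (-(θ * (z - ζ))) * cexp (θ * (z - ζ)) = 1 := by
    rw [← Complex.exp_add, neg_add_cancel, Complex.exp_zero]
  rw [h2, neg_mul, mul_one_sub, h3]
  ring

lemma sym_norm (θ : ℝ) (n : ℕ) (ζ : Fin n → ℂ) (σ : Equiv.Perm (Fin n))
    (h : ∀ j, ζ (σ j) = -(starRingEnd ℂ) (ζ j)) :
    ‖(-1 : ℂ) ^ n * cexp (θ * ∑ j, ζ j)‖ = 1 := by
  have h1 : ∑ j, ζ j = -(starRingEnd ℂ) (∑ j, ζ j) := by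
    rw [map_sum, ← Finset.sum_neg_distrib, ← Equiv.sum_comp σ ζ]
    exact Finset.sum_congr rfl fun j _ => h j
  have h2 : (∑ j, ζ j).re = 0 := by
    have h3 := congrArg Complex.re h1
    rw [Complex.neg_re, Complex.conj_re] at h3
    linarith
  rw [norm_mul, norm_pow, norm_neg, norm_one, one_pow, one_mul, Complex.norm_exp,
    Complex.re_ofReal_mul, h2, mul_zero, Real.exp_zero]

theorem pf_sym : T_SYM := by
  intro θ n ζ σ h
  refine ⟨sym_poly θ n ζ, (-1 : ℂ) ^ n * cexp (θ * ∑ j, ζ j), sym_norm θ n ζ σ h, ?_⟩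
  intro z
  rw [Finset.prod_congr rfl fun j _ => sym_factor θ z (ζ j) (ζ (σ j)) (h j),
    Finset.prod_mul_distrib, map_prod,
    Equiv.prod_comp σ (fun j => (starRingEnd ℂ) (1 - cexp (-(θ * (-(starRingEnd ℂ) z - ζ j)))))]
  congr 1
  rw [Finset.prod_mul_distrib, Finset.prod_const, Finset.card_univ, Fintype.card_fin,
    ← Complex.exp_sum, ← Finset.mul_sum, mul_pow, ← Complex.exp_nat_mul]
  have h4 : cexp ((n : ℂ) * -(θ * z)) = cexp (-(θ * n * z)) := by
    congr 1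
    ring
  rw [h4]
  ring

end Pool.Agent.H69.LIM
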